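import Mathlib

/-!
# A right primitive ring that is not a subdirect product of subdirectly indecomposable right
# primitive rings

Let `W` be the ring of Witt vectors of an algebraic closure of the field with two elements, `K` its
field of fractions and `φ` the Frobenius automorphism of `K`.  The skew Laurent ring
`W[u, u⁻¹; φ]` is realised as the ring `S` of additive operators `v ↦ ∑ bₙ 2⁻ⁿ φⁿ(v)` on `K`
(`bₙ ∈ W`), and `R` is the opposite ring, so that `K` is a right `R`-module.

* `K` is simple and faithful, because every nonzero element of `K` is a power of `2` times a unit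
  of `W`, and the shift `u` divides by `2`; so `R` is right primitive.
* `2` is central, the intersection of the ideals `2ᵏ R` is zero, and every nonzero two-sided ideal
  contains some `2ᵏ` (minimal support argument, `φⁿ ≠ 1` for `n ≠ 0`).
* So `R` is not subdirectly indecomposable, and a nonzero ideal `J` with `R ⧸ J` right primitive
  contains `2`.  Hence `2` lies in every ideal `J` such that `R ⧸ J` is right primitive and
  subdirectly indecomposable.
-/

namespace Pool.Agent.Results.MP_150040_al.NotSubdirectProduct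

universe u

variable {K : Type u} [Field K]

/-- the twisted operators -/
def T (σ : RingAut K) (π : K) (n : ℤ) : AddMonoid.End K where
  toFun v := π ^ (-n) * (σ ^ n) v
  map_zero' := by simp
  map_add' := by intro a b; simp [mul_add]

lemma T_apply (σ : RingAut K) (π : K) (n : ℤ) (v : K) : T σ π n v = π ^ (-n) * (σ ^ n) v := rfl

lemma zpow_fix (σ : RingAut K) (π : K) (h : σ π = π) (n : ℤ) : (σ ^ n) π = π := by
  have hn : ∀ m : ℕ, (σ ^ m) π = π := by
    intro m
    induction m with
    | zero => simp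
    | succ m ih => rw [pow_succ, RingAut.mul_apply, h, ih]
  cases n with
  | ofNat m => simpa using hn m
  | negSucc m =>
    rw [zpow_negSucc]
    have := hn (m + 1)
    conv_lhs => rw [← this]
    rw [← RingAut.mul_apply]
    simp

lemma T_T (σ : RingAut K) (π : K) (h : σ π = π) (h0 : π ≠ 0) (n m : ℤ) (v : K) :
    T σ π n (T σ π m v) = T σ π (n + m) v := by
  simp only [T_apply, map_mul, map_zpow₀, zpow_fix σ π h]
  rw [← mul_assoc, ← zpow_add₀ h0, zpow_add, RingAut.mul_apply]
  congr 2
  ring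

/-- evaluation of a finitely supported family as an operator -/
noncomputable def ev (σ : RingAut K) (π : K) (c : ℤ →₀ K) : AddMonoid.End K :=
  c.sum fun n a => (AddMonoidHom.mulLeft a).comp (T σ π n)

lemma ev_apply (σ : RingAut K) (π : K) (c : ℤ →₀ K) (v : K) :
    ev σ π c v = c.sum fun n a => a * T σ π n v := by
  unfold ev
  simp only [Finsupp.sum]
  exact AddMonoidHom.finsetSum_apply _ _ _

lemma ev_single (σ : RingAut K) (π : K) (n : ℤ) (a v : K) :
    ev σ π (Finsupp.single n a) v = a * T σ π n v := by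
  rw [ev_apply]; simp

lemma ev_add (σ : RingAut K) (π : K) (c d : ℤ →₀ K) : ev σ π (c + d) = ev σ π c + ev σ π d := by
  ext v
  change ev σ π (c + d) v = ev σ π c v + ev σ π d v
  simp only [ev_apply]
  rw [Finsupp.sum_add_index'] <;> intros <;> ring

lemma ev_zero (σ : RingAut K) (π : K) : ev σ π 0 = 0 := by
  ext v; rw [ev_apply]; simp

lemma ev_neg (σ : RingAut K) (π : K) (c : ℤ →₀ K) : ev σ π (-c) = - ev σ π c := by
  have := ev_add σ π c (-c)
  rw [add_neg_cancel, ev_zero] at this
  exact (neg_eq_of_add_eq_zero_right this.symm).symm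

/-- Dedekind -/
lemma ev_eq_zero (σ : RingAut K) (π : K) (h0 : π ≠ 0)
    (hσ : ∀ n : ℤ, n ≠ 0 → ∃ b : K, (σ ^ n) b ≠ b) (c : ℤ →₀ K)
    (h : ∀ v, ev σ π c v = 0) : c = 0 := by
  let F : ℤ → (K →* K) := fun n => ((σ ^ n : RingAut K) : K →* K)
  have hF : Function.Injective F := by
    intro n m hnm
    by_contra hne
    obtain ⟨b, hb⟩ := hσ (n - m) (sub_ne_zero.2 hne)
    apply hb
    have h1 : ∀ v, (σ ^ n) v = (σ ^ m) v := fun v => DFunLike.congr_fun hnm v
    have h2 := h1 ((σ ^ (-m)) b)
    rw [← RingAut.mul_apply, ← RingAut.mul_apply, ← zpow_add, ← zpow_add] at h2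
    simpa [sub_eq_add_neg] using h2
  have hL := (linearIndependent_monoidHom K K).comp F hF
  rw [linearIndependent_iff'] at hL
  ext n
  by_cases hn : n ∈ c.support
  · have := hL c.support (fun n => c n * π ^ (-n)) (by
      ext v
      have := h v
      rw [ev_apply, Finsupp.sum] at this
      simp only [T_apply] at this
      simp only [Finset.sum_apply, Pi.smul_apply, smul_eq_mul, Pi.zero_apply, Function.comp]
      rw [← this]
      apply Finset.sum_congr rfl
      intro x _
      simp [F, mul_assoc]) n hn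
    rcases mul_eq_zero.1 this with h1 | h1
    · simpa using h1
    · exact absurd h1 (zpow_ne_zero _ h0)
  · simpa using hn


lemma T_mul (σ : RingAut K) (π : K) (n : ℤ) (a v : K) :
    T σ π n (a * v) = (σ ^ n) a * T σ π n v := by
  simp only [T_apply, map_mul]; ring

lemma ev_mul (σ : RingAut K) (π : K) (h : σ π = π) (h0 : π ≠ 0) (c d : ℤ →₀ K) :
    ev σ π c * ev σ π d =
      ev σ π (c.sum fun n a => d.sum fun m b => Finsupp.single (n + m) (a * (σ ^ n) b)) := by
  ext v
  have key : ∀ (s : ℤ →₀ K) (f : ℤ → K → (ℤ →₀ K)),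
      ev σ π (s.sum f) v = s.sum fun n a => ev σ π (f n a) v := by
    intro s f
    let φ : (ℤ →₀ K) →+ K :=
      { toFun := fun c => ev σ π c v
        map_zero' := by simp [ev_zero]
        map_add' := by
          intro a b
          rw [ev_add]; rfl }
    exact map_finsuppSum φ s f
  rw [key]
  simp_rw [key, ev_single]
  change ev σ π c (ev σ π d v) = _
  rw [ev_apply σ π c]
  apply Finsupp.sum_congr
  intro n _
  rw [ev_apply, Finsupp.sum, Finsupp.sum, map_sum, Finset.mul_sum]
  apply Finset.sum_congr rfl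
  intro m _
  rw [T_mul, T_T σ π h h0]
  ring

/-- the ring of twisted operators with coefficients in `B` -/
noncomputable def opRing (σ : RingAut K) (π : K) (B : Subring K) (h : σ π = π) (h0 : π ≠ 0)
    (hB : ∀ b ∈ B, ∀ n : ℤ, (σ ^ n) b ∈ B) : Subring (AddMonoid.End K) where
  carrier := {f | ∃ c : ℤ →₀ K, (∀ n, c n ∈ B) ∧ f = ev σ π c}
  zero_mem' := ⟨0, fun n => by simp, (ev_zero σ π).symm⟩
  one_mem' := by
    refine ⟨Finsupp.single 0 1, fun n => ?_, ?_⟩
    · rw [Finsupp.single_apply]
      split_ifs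
      · exact B.one_mem
      · exact B.zero_mem
    · ext v
      rw [ev_single, T_apply]
      simp
  add_mem' := by
    rintro _ _ ⟨c, hc, rfl⟩ ⟨d, hd, rfl⟩
    exact ⟨c + d, fun n => B.add_mem (hc n) (hd n), (ev_add σ π c d).symm⟩
  neg_mem' := by
    rintro _ ⟨c, hc, rfl⟩
    exact ⟨-c, fun n => B.neg_mem (hc n), (ev_neg σ π c).symm⟩
  mul_mem' := by
    rintro _ _ ⟨c, hc, rfl⟩ ⟨d, hd, rfl⟩
    refine ⟨_, fun k => ?_, ev_mul σ π h h0 c d⟩
    rw [Finsupp.sum, Finsupp.finsetSum_apply]
    apply B.sum_mem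
    intro n _
    rw [Finsupp.sum, Finsupp.finsetSum_apply]
    apply B.sum_mem
    intro m _
    rw [Finsupp.single_apply]
    split_ifs
    · exact B.mul_mem (hc n) (hB _ (hd m) n)
    · exact B.zero_mem


/-- A ring `R` (not assumed unital) is right primitive if it has a faithful simple right module `M`.
The right action of `r` on `m` is `act m r`.  The three first conditions say that `M` is a right
`R`-module, the next two that `M` is simple (`M R ≠ 0` and the only submodules are `0` and `M`), the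
last one that `M` is faithful.  (A simple right module is a quotient of the additive group of `R`,
so nothing is lost by taking `M` in the universe of `R`.) -/
def IsRightPrimitive (R : Type u) [NonUnitalRing R] : Prop :=
  ∃ (M : Type u) (_ : AddCommGroup M) (act : M → R → M),
    (∀ m n r, act (m + n) r = act m r + act n r) ∧
    (∀ m r s, act m (r + s) = act m r + act m s) ∧
    (∀ m r s, act m (r * s) = act (act m r) s) ∧
    (∃ m r, act m r ≠ 0) ∧
    (∀ N : AddSubgroup M, (∀ m ∈ N, ∀ r, act m r ∈ N) → N = ⊥ ∨ N = ⊤) ∧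
    (∀ r, (∀ m, act m r = 0) → r = 0)

/-- A ring is subdirectly indecomposable if it is nonzero and the intersection of all its nonzero
two-sided ideals is nonzero. -/
def IsSubdirectlyIndecomposable (S : Type u) [NonUnitalRing S] : Prop :=
  Nontrivial S ∧ sInf {I : TwoSidedIdeal S | I ≠ ⊥} ≠ ⊥

section generic

variable {R : Type u} [Ring R] (x : R) (hx : ∀ r, x * r = r * x)

include hx in
lemma mem_of_primitive (J : TwoSidedIdeal R) (k : ℕ) (hk : x ^ k ∈ J)
    (hJ : IsRightPrimitive J.ringCon.Quotient) : x ∈ J := by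
  obtain ⟨M, _, act, hadd, hadd', hmul, ⟨m0, r0, hne⟩, hsimple, hfaith⟩ := hJ
  have hact0 : ∀ m, act m 0 = 0 := by
    intro m
    have := hadd' m 0 0
    simpa using this
  have h0act : ∀ r, act 0 r = 0 := by
    intro r
    have := hadd 0 0 r
    simpa using this
  have hneg : ∀ m r, act (-m) r = - act m r := by
    intro m r
    have := hadd (-m) m r
    rw [neg_add_cancel, h0act] at this
    exact (neg_eq_of_add_eq_zero_left this.symm).symm
  let q : R → J.ringCon.Quotient := fun r => (r : J.ringCon.Quotient)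
  have hq : ∀ a b, q (a * b) = q a * q b := fun a b => rfl
  have hqs : ∀ y : J.ringCon.Quotient, ∃ r, q r = y := fun y => Quotient.exists_rep y
  have hq0 : ∀ a, q a = 0 ↔ a ∈ J := by
    intro a
    exact RingCon.eq _
  let N : AddSubgroup M :=
    { carrier := {m | ∃ m', act m' (q x) = m}
      zero_mem' := ⟨0, h0act _⟩
      add_mem' := by
        rintro _ _ ⟨a, rfl⟩ ⟨b, rfl⟩
        exact ⟨a + b, hadd _ _ _⟩
      neg_mem' := by
        rintro _ ⟨a, rfl⟩
        exact ⟨-a, hneg _ _⟩ }
  have hN : ∀ m ∈ N, ∀ r, act m r ∈ N := by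
    rintro _ ⟨a, rfl⟩ r
    obtain ⟨r, rfl⟩ := hqs r
    refine ⟨act a (q r), ?_⟩
    rw [← hmul, ← hmul, ← hq, ← hq, hx]
  rcases hsimple N hN with h | h
  · rw [← hq0]
    apply hfaith
    intro m
    have : act m (q x) ∈ N := ⟨m, rfl⟩
    rw [h] at this
    exact this
  · exfalso
    have hsurj : ∀ m, ∃ m', act m' (q x) = m := by
      intro m
      have : m ∈ N := by rw [h]; trivial
      exact this
    have hsurjk : ∀ k : ℕ, ∀ m, ∃ m', act m' (q (x ^ (k + 1))) = m := by
      intro k
      induction k with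
      | zero => intro m; simpa using hsurj m
      | succ k ih =>
        intro m
        obtain ⟨m1, h1⟩ := hsurj m
        obtain ⟨m2, h2⟩ := ih m1
        refine ⟨m2, ?_⟩
        rw [pow_succ, hq, hmul, h2, h1]
    obtain ⟨m', hm'⟩ := hsurjk k m0
    have h3 : q (x ^ (k + 1)) = 0 := by
      rw [hq0, pow_succ]
      exact J.mul_mem_right _ _ hk
    rw [h3, hact0] at hm'
    apply hne
    rw [← hm', h0act]

include hx in
lemma mem_of_primitive_SI
    (ha : ∀ I : TwoSidedIdeal R, I ≠ ⊥ → ∃ k : ℕ, x ^ k ∈ I)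
    (hb : ∀ r : R, (∀ k : ℕ, ∃ s, r = x ^ k * s) → r = 0)
    (hc : ∀ k : ℕ, x ^ k ≠ 0)
    (J : TwoSidedIdeal R)
    (hJ : IsRightPrimitive J.ringCon.Quotient)
    (hJ' : IsSubdirectlyIndecomposable J.ringCon.Quotient) : x ∈ J := by
  by_cases hJ0 : J = ⊥
  · exfalso
    subst hJ0
    apply hJ'.2
    rw [eq_bot_iff]
    intro y hy
    have hxk : ∀ k : ℕ, ∀ r, x ^ k * r = r * x ^ k := by
      intro k
      induction k with
      | zero => simp
      | succ k ih =>
        intro r
        rw [pow_succ, mul_assoc, hx, ← mul_assoc, ih, mul_assoc]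
    let q : R → (⊥ : TwoSidedIdeal R).ringCon.Quotient := fun r => (r : (⊥ : TwoSidedIdeal R).ringCon.Quotient)
    have hq : ∀ a b, q (a * b) = q a * q b := fun a b => rfl
    have hqa : ∀ a b, q (a + b) = q a + q b := fun a b => rfl
    have hqn : ∀ a, q (-a) = - q a := fun a => rfl
    have hqs : ∀ y, ∃ r, q r = y := fun y => Quotient.exists_rep y
    have hqi : ∀ a b, q a = q b → a = b := by
      intro a b h
      have h1 : (⊥ : TwoSidedIdeal R).ringCon a b := (RingCon.eq _).1 h
      rw [TwoSidedIdeal.rel_iff, TwoSidedIdeal.mem_bot] at h1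
      exact sub_eq_zero.1 h1
    let I : ℕ → TwoSidedIdeal ((⊥ : TwoSidedIdeal R).ringCon.Quotient) := fun k =>
      TwoSidedIdeal.mk' {y | ∃ r, y = q (x ^ k * r)}
        ⟨0, by rw [mul_zero]; rfl⟩
        (by
          rintro _ _ ⟨a, rfl⟩ ⟨b, rfl⟩
          exact ⟨a + b, by rw [mul_add, hqa]⟩)
        (by
          rintro _ ⟨a, rfl⟩
          exact ⟨-a, by rw [mul_neg, hqn]⟩)
        (by
          rintro y _ ⟨a, rfl⟩
          obtain ⟨b, rfl⟩ := hqs y
          exact ⟨b * a, by rw [← hq, ← mul_assoc, ← hxk, mul_assoc]⟩)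
        (by
          rintro _ y ⟨a, rfl⟩
          obtain ⟨b, rfl⟩ := hqs y
          exact ⟨a * b, by rw [← hq, ← mul_assoc]⟩)
    have hI : ∀ k, I k ≠ ⊥ := by
      intro k h
      have h1 : q (x ^ k) ∈ I k := by
        rw [TwoSidedIdeal.mem_mk']
        exact ⟨1, by rw [mul_one]⟩
      rw [h, TwoSidedIdeal.mem_bot] at h1
      exact hc k (hqi _ 0 h1)
    obtain ⟨r, rfl⟩ := hqs y
    have hr : r = 0 := by
      apply hb
      intro k
      have h1 : q r ∈ I k := by
        rw [TwoSidedIdeal.mem_sInf] at hy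
        exact hy (I k) (hI k)
      rw [TwoSidedIdeal.mem_mk'] at h1
      obtain ⟨s, hs⟩ := h1
      exact ⟨s, hqi _ _ hs⟩
    rw [TwoSidedIdeal.mem_bot, hr]
    rfl
  · obtain ⟨k, hk⟩ := ha J hJ0
    exact mem_of_primitive x hx J k hk hJ

end generic



section concrete

variable (σ : RingAut K) (π : K) (B : Subring K) (h : σ π = π) (h0 : π ≠ 0)
  (hB : ∀ b ∈ B, ∀ n : ℤ, (σ ^ n) b ∈ B)

include h in
lemma T_pi (n : ℤ) (v : K) : T σ π n (π * v) = π * T σ π n v := by
  rw [T_mul, zpow_fix σ π h]

/-- multiplication by a coefficient -/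
noncomputable def mB (b : K) (hb : b ∈ B) : opRing σ π B h h0 hB :=
  ⟨ev σ π (Finsupp.single 0 b), Finsupp.single 0 b, by
    intro n
    rw [Finsupp.single_apply]
    split_ifs
    · exact hb
    · exact B.zero_mem, rfl⟩

lemma mB_apply (b : K) (hb : b ∈ B) (v : K) : (mB σ π B h h0 hB b hb).1 v = b * v := by
  change ev σ π (Finsupp.single 0 b) v = _
  rw [ev_single, T_apply]; simp

/-- the twisted shift -/
noncomputable def tB (n : ℤ) : opRing σ π B h h0 hB :=
  ⟨ev σ π (Finsupp.single n 1), Finsupp.single n 1, by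
    intro m
    rw [Finsupp.single_apply]
    split_ifs
    · exact B.one_mem
    · exact B.zero_mem, rfl⟩

lemma tB_apply (n : ℤ) (v : K) : (tB σ π B h h0 hB n).1 v = T σ π n v := by
  change ev σ π (Finsupp.single n 1) v = _
  rw [ev_single, one_mul]

lemma mul_apply' (r s : opRing σ π B h h0 hB) (v : K) : (r * s).1 v = r.1 (s.1 v) := rfl

lemma ext' {r s : opRing σ π B h h0 hB} (hrs : ∀ v, r.1 v = s.1 v) : r = s := by
  apply Subtype.ext
  exact AddMonoidHom.ext hrs

variable (hπB : π ∈ B)

lemma mB_pi_comm (r : opRing σ π B h h0 hB) :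
    mB σ π B h h0 hB π hπB * r = r * mB σ π B h h0 hB π hπB := by
  apply ext'
  intro v
  rw [mul_apply', mul_apply', mB_apply, mB_apply]
  obtain ⟨_, c, hc, rfl⟩ := r
  simp only [ev_apply, Finsupp.sum, Finset.mul_sum, T_pi σ π h]
  apply Finset.sum_congr rfl
  intro n _
  ring

lemma mB_pow (k : ℕ) (v : K) : ((mB σ π B h h0 hB π hπB) ^ k).1 v = π ^ k * v := by
  induction k generalizing v with
  | zero => simp
  | succ k ih =>
    rw [pow_succ, mul_apply', mB_apply, ih, pow_succ, mul_assoc]

variable (hπ : π⁻¹ ∉ B) (h3 : ∀ v : K, v ≠ 0 → ∃ n : ℤ, ∃ u : K, u ∈ B ∧ u⁻¹ ∈ B ∧ v = π ^ n * u)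
  (h5 : ∀ n : ℤ, n ≠ 0 → ∃ b ∈ B, (σ ^ n) b ≠ b)

include hπ hπB h0 in
lemma zpow_mem_iff (n : ℤ) (u : K) (hu0 : u ≠ 0) (hu : u⁻¹ ∈ B) (hn : π ^ n * u ∈ B) : 0 ≤ n := by
  by_contra hneg
  push Not at hneg
  apply hπ
  have h1 : π ^ n ∈ B := by
    have := B.mul_mem hn hu
    rwa [mul_assoc, mul_inv_cancel₀ hu0, mul_one] at this
  obtain ⟨m, hm⟩ : ∃ m : ℕ, n = -((m : ℤ) + 1) := by
    refine ⟨(-n - 1).toNat, ?_⟩
    omega
  have h2 : π⁻¹ = π ^ n * π ^ m := by
    rw [hm, ← zpow_natCast π m, ← zpow_add₀ h0]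
    rw [show -((m : ℤ) + 1) + m = -1 by ring, zpow_neg_one]
  rw [h2]
  exact B.mul_mem h1 (B.pow_mem hπB m)

include hπ h3 h5 in
lemma exists_pow_mem (I : TwoSidedIdeal (opRing σ π B h h0 hB)) : ∀ (N : ℕ) (c : ℤ →₀ K)
    (hc : ∀ n, c n ∈ B), c ≠ 0 → c.support.card ≤ N →
    (⟨ev σ π c, c, hc, rfl⟩ : opRing σ π B h h0 hB) ∈ I →
    ∃ m : ℕ, (mB σ π B h h0 hB π hπB) ^ m ∈ I := by
  intro N
  induction N with
  | zero =>
    intro c hc hc0 hcard _
    exfalso
    apply hc0
    rw [← Finsupp.support_eq_empty, ← Finset.card_eq_zero]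
    omega
  | succ N ih =>
    intro c hc hc0 hcard hmem
    obtain ⟨n0, hn0⟩ : c.support.Nonempty := by
      rw [Finsupp.support_nonempty_iff]; exact hc0
    by_cases hall : ∀ n ∈ c.support, n = n0
    · -- a single term
      have hcs : c = Finsupp.single n0 (c n0) := by
        ext n
        rw [Finsupp.single_apply]
        split_ifs with hn
        · rw [hn]
        · by_contra hne
          exact hn (hall n (Finsupp.mem_support_iff.2 hne)).symm
      have hcn0 : c n0 ≠ 0 := Finsupp.mem_support_iff.1 hn0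
      obtain ⟨n, u, hu, hu', hcu⟩ := h3 _ hcn0
      have hu0 : u ≠ 0 := by
        rintro rfl
        rw [mul_zero] at hcu
        exact hcn0 hcu
      have hn : 0 ≤ n := zpow_mem_iff π B h0 hπB hπ n u hu0 hu' (by rw [← hcu]; exact hc n0)
      obtain ⟨m, rfl⟩ := Int.eq_ofNat_of_zero_le hn
      refine ⟨m, ?_⟩
      have h1 := I.mul_mem_right _ (tB σ π B h h0 hB (-n0)) hmem
      have h2 := I.mul_mem_left (mB σ π B h h0 hB u⁻¹ hu') _ h1
      convert h2 using 1
      apply ext'
      intro v
      rw [mB_pow, mul_apply', mB_apply, mul_apply', tB_apply]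
      change _ = u⁻¹ * ev σ π c (T σ π (-n0) v)
      rw [hcs, ev_single, T_T σ π h h0]
      rw [add_neg_cancel, T_apply]
      simp only [neg_zero, zpow_zero, one_mul, RingAut.one_apply]
      rw [hcu, zpow_natCast]
      field_simp
    · push Not at hall
      obtain ⟨n1, hn1, hne⟩ := hall
      obtain ⟨b0, hb0, hb0'⟩ := h5 (n1 - n0) (sub_ne_zero.2 hne)
      let b := (σ ^ (-n0)) b0
      have hb : b ∈ B := hB _ hb0 _
      have e0 : (σ ^ n0) b = b0 := by
        simp only [b]
        rw [← RingAut.mul_apply, ← zpow_add]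
        simp
      have e1 : (σ ^ n1) b = (σ ^ (n1 - n0)) b0 := by
        simp only [b]
        rw [← RingAut.mul_apply, ← zpow_add]
        rfl
      let c' : ℤ →₀ K := Finsupp.onFinset c.support (fun n => c n * ((σ ^ n0) b - (σ ^ n) b)) (by
        intro n hn
        rw [Finsupp.mem_support_iff]
        intro h'
        apply hn
        rw [h', zero_mul])
      have hc'v : ∀ n, c' n = c n * ((σ ^ n0) b - (σ ^ n) b) := fun n => rfl
      have hc' : ∀ n, c' n ∈ B := by
        intro n
        rw [hc'v]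
        exact B.mul_mem (hc n) (B.sub_mem (hB _ hb _) (hB _ hb _))
      apply ih c' hc'
      · intro hz
        have : c' n1 = 0 := by rw [hz]; rfl
        rw [hc'v, e0, e1] at this
        rcases mul_eq_zero.1 this with h' | h'
        · exact (Finsupp.mem_support_iff.1 hn1) h'
        · exact hb0' (sub_eq_zero.1 h').symm
      · have hss : c'.support ⊆ c.support.erase n0 := by
          intro n hn
          rw [Finsupp.mem_support_iff, hc'v] at hn
          rw [Finset.mem_erase, Finsupp.mem_support_iff]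
          constructor
          · rintro rfl
            apply hn
            rw [sub_self, mul_zero]
          · intro h'
            apply hn
            rw [h', zero_mul]
        have := Finset.card_le_card hss
        rw [Finset.card_erase_of_mem hn0] at this
        omega
      · have h1 := I.mul_mem_left (mB σ π B h h0 hB ((σ ^ n0) b) (hB _ hb _)) _ hmem
        have h2 := I.mul_mem_right _ (mB σ π B h h0 hB b hb) hmem
        have h3' := I.sub_mem h1 h2
        convert h3' using 1
        apply ext'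
        intro v
        have hsub : ∀ r s : opRing σ π B h h0 hB, (r - s).1 v = r.1 v - s.1 v := fun _ _ => rfl
        rw [hsub, mul_apply', mul_apply', mB_apply, mB_apply]
        change ev σ π c' v = (σ ^ n0) b * ev σ π c v - ev σ π c (b * v)
        simp only [ev_apply]
        rw [Finsupp.onFinset_sum _ (by simp)]
        simp only [Finsupp.sum, T_mul]
        rw [Finset.mul_sum, ← Finset.sum_sub_distrib]
        apply Finset.sum_congr rfl
        intro n _
        ring


lemma ev_smul (a : K) (c : ℤ →₀ K) (v : K) : ev σ π (a • c) v = a * ev σ π c v := by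
  rw [ev_apply, ev_apply, Finsupp.sum_smul_index (by simp), Finsupp.sum, Finsupp.sum,
    Finset.mul_sum]
  apply Finset.sum_congr rfl
  intro n _
  ring

include hπ h3 h5 in
lemma inter_pow (r : opRing σ π B h h0 hB)
    (hr : ∀ k : ℕ, ∃ s, r = (mB σ π B h h0 hB π hπB) ^ k * s) : r = 0 := by
  obtain ⟨_, c, hc, rfl⟩ := r
  have hc0 : c = 0 := by
    ext n
    by_contra hn
    have hn' : c n ≠ 0 := hn
    obtain ⟨a, u, hu, hu', hcu⟩ := h3 _ hn'
    have hu0 : u ≠ 0 := by
      rintro rfl
      rw [mul_zero] at hcu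
      exact hn' hcu
    obtain ⟨⟨_, d, hd, rfl⟩, hs⟩ := hr (a.toNat + 1)
    have hcd : c - π ^ (a.toNat + 1) • d = 0 := by
      apply ev_eq_zero σ π h0 (fun n hn => (h5 n hn).imp fun b hb => hb.2)
      intro v
      have h1 : ev σ π c v = ((mB σ π B h h0 hB π hπB) ^ (a.toNat + 1) *
        (⟨ev σ π d, d, hd, rfl⟩ : opRing σ π B h h0 hB)).1 v := by
        rw [← hs]
      rw [mul_apply', mB_pow] at h1
      rw [sub_eq_add_neg, ev_add, ev_neg]
      change ev σ π c v + - ev σ π (π ^ (a.toNat + 1) • d) v = 0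
      rw [ev_smul, h1]
      exact add_neg_cancel _
    have hcn : c n = π ^ (a.toNat + 1) * d n := by
      have := DFunLike.congr_fun hcd n
      simpa [sub_eq_zero] using this
    have hdn : π ^ (a - (a.toNat + 1 : ℕ)) * u ∈ B := by
      have : π ^ (a - (a.toNat + 1 : ℕ)) * u = d n := by
        rw [zpow_sub₀ h0, zpow_natCast, div_mul_eq_mul_div, ← hcu, hcn]
        field_simp
      rw [this]
      exact hd n
    have := zpow_mem_iff π B h0 hπB hπ _ u hu0 hu' hdn
    omega
  subst hc0
  apply Subtype.ext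
  exact ev_zero σ π

lemma pow_ne_zero' (k : ℕ) : (mB σ π B h h0 hB π hπB) ^ k ≠ 0 := by
  intro hk
  have h1 := mB_pow σ π B h h0 hB hπB k 1
  rw [hk] at h1
  have h2 : (0 : K) = π ^ k * 1 := h1
  rw [mul_one] at h2
  exact pow_ne_zero k h0 h2.symm

include hπB h3 in
lemma primitive : IsRightPrimitive (opRing σ π B h h0 hB)ᵐᵒᵖ := by
  refine ⟨K, inferInstance, fun v r => r.unop.1 v, ?_, ?_, ?_, ?_, ?_, ?_⟩
  · intro m n r; exact map_add _ _ _
  · intro m r s; rfl
  · intro m r s; rfl
  · exact ⟨1, 1, by simp⟩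
  · intro N hN
    by_cases hbot : N = ⊥
    · exact Or.inl hbot
    right
    obtain ⟨v, hv, hv0⟩ : ∃ v ∈ N, v ≠ 0 := by
      by_contra hcon
      push Not at hcon
      apply hbot
      rw [eq_bot_iff]
      intro v hv
      exact hcon v hv
    rw [eq_top_iff]
    intro w _
    by_cases hw0 : w = 0
    · rw [hw0]; exact N.zero_mem
    obtain ⟨a, u, hu, hu', hvu⟩ := h3 v hv0
    obtain ⟨b, u', hu1, hu1', hwu⟩ := h3 w hw0
    let m : ℕ := (a - b).toNat
    have hv1 : T σ π m v ∈ N := by
      have := hN v hv (MulOpposite.op (tB σ π B h h0 hB m))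
      simp only [MulOpposite.unop_op] at this
      rwa [tB_apply] at this
    have hu0 : u ≠ 0 := by
      rintro rfl
      rw [mul_zero] at hvu
      exact hv0 hvu
    have hσu0 : (σ ^ (m : ℤ)) u ≠ 0 := by
      intro hz
      apply hu0
      exact (map_eq_zero_iff _ (RingEquiv.injective _)).1 hz
    have hb' : π ^ (b - a + m).toNat * u' * ((σ ^ (m : ℤ)) u)⁻¹ ∈ B := by
      refine B.mul_mem (B.mul_mem (B.pow_mem hπB _) hu1) ?_
      rw [← map_inv₀]
      exact hB _ hu' _
    have hw : w = (π ^ (b - a + m).toNat * u' * ((σ ^ (m : ℤ)) u)⁻¹) * T σ π m v := by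
      have hnn : 0 ≤ b - a + m := by
        simp only [m]
        omega
      rw [← zpow_natCast π, Int.toNat_of_nonneg hnn, T_apply, hvu, hwu, map_mul, map_zpow₀,
        zpow_fix σ π h]
      rw [show b - a + (m : ℤ) = b + (-a + m) by ring, zpow_add₀ h0, zpow_add₀ h0, zpow_neg, zpow_neg]
      have hπa : π ^ a ≠ 0 := zpow_ne_zero _ h0
      have hπm : π ^ (m : ℤ) ≠ 0 := zpow_ne_zero _ h0
      field_simp
    have := hN _ hv1 (MulOpposite.op (mB σ π B h h0 hB _ hb'))
    simp only [MulOpposite.unop_op] at this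
    rw [mB_apply, ← hw] at this
    exact this
  · intro r hr
    apply MulOpposite.unop_injective
    apply ext'
    intro v
    exact hr v


include hπB hπ h3 h5 in
lemma main_abs : ∃ x : (opRing σ π B h h0 hB)ᵐᵒᵖ, x ≠ 0 ∧
    ∀ J : TwoSidedIdeal (opRing σ π B h h0 hB)ᵐᵒᵖ,
      IsRightPrimitive J.ringCon.Quotient → IsSubdirectlyIndecomposable J.ringCon.Quotient →
      x ∈ J := by
  refine ⟨MulOpposite.op (mB σ π B h h0 hB π hπB), ?_, ?_⟩
  · intro hz
    have := pow_ne_zero' σ π B h h0 hB hπB 1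
    rw [pow_one] at this
    exact this (MulOpposite.op_injective hz)
  · intro J hJ hJ'
    refine mem_of_primitive_SI _ ?_ ?_ ?_ ?_ J hJ hJ'
    · intro r
      apply MulOpposite.unop_injective
      exact (mB_pi_comm σ π B h h0 hB hπB r.unop).symm
    · intro I hI
      have hI' : I.unop ≠ ⊥ := by
        intro hbot
        apply hI
        rw [eq_bot_iff]
        intro y hy
        have h1 : y.unop ∈ I.unop := by
          rw [TwoSidedIdeal.mem_unop_iff]; exact hy
        rw [hbot, TwoSidedIdeal.mem_bot] at h1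
        rw [TwoSidedIdeal.mem_bot]
        exact MulOpposite.unop_injective h1
      obtain ⟨⟨_, c, hc, rfl⟩, hrI, hr0⟩ : ∃ r ∈ I.unop, r ≠ 0 := by
        by_contra hcon
        push Not at hcon
        apply hI'
        rw [eq_bot_iff]
        intro r hr
        rw [TwoSidedIdeal.mem_bot]
        exact hcon r hr
      have hc0 : c ≠ 0 := by
        rintro rfl
        apply hr0
        apply Subtype.ext
        exact ev_zero σ π
      obtain ⟨m, hm⟩ := exists_pow_mem σ π B h h0 hB hπB hπ h3 h5 I.unop _ c hc hc0 le_rfl hrI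
      refine ⟨m, ?_⟩
      rw [TwoSidedIdeal.mem_unop_iff, MulOpposite.op_pow] at hm
      exact hm
    · intro r hr
      apply MulOpposite.unop_injective
      apply inter_pow σ π B h h0 hB hπB hπ h3 h5
      intro k
      obtain ⟨s, hs⟩ := hr k
      have hcomm : ∀ k : ℕ, ∀ y, (mB σ π B h h0 hB π hπB) ^ k * y = y * (mB σ π B h h0 hB π hπB) ^ k := by
        intro k y
        have : Commute (mB σ π B h h0 hB π hπB) y := mB_pi_comm σ π B h h0 hB hπB y
        exact (this.pow_left k)
      refine ⟨s.unop, ?_⟩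
      rw [hs, MulOpposite.unop_mul, MulOpposite.unop_pow, MulOpposite.unop_op, hcomm]
    · intro k hk
      rw [← MulOpposite.op_pow] at hk
      exact pow_ne_zero' σ π B h h0 hB hπB k (MulOpposite.op_injective hk)

end concrete

section witt

open WittVector

abbrev kk := AlgebraicClosure (ZMod 2)

abbrev WW := WittVector 2 kk

abbrev KK := FractionRing WW

noncomputable def phi : RingAut KK := WittVector.FractionRing.frobenius 2 kk

lemma phi_alg (w : WW) : phi (algebraMap WW KK w) = algebraMap WW KK (WittVector.frobenius w) := by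
  exact IsFractionRing.ringEquivOfRingEquiv_algebraMap _ _

lemma phi_alg' (w : WW) : ∃ w', (phi⁻¹ : RingAut KK) (algebraMap WW KK w) = algebraMap WW KK w' := by
  refine ⟨(WittVector.frobeniusEquiv 2 kk).symm w, ?_⟩
  have h1 := phi_alg ((WittVector.frobeniusEquiv 2 kk).symm w)
  have h2 : WittVector.frobenius ((WittVector.frobeniusEquiv 2 kk).symm w) = w :=
    (WittVector.frobeniusEquiv 2 kk).apply_symm_apply w
  rw [h2] at h1
  rw [← h1, ← RingAut.mul_apply]
  simp

lemma phi_npow (n : ℕ) (w : WW) : (phi ^ n) (algebraMap WW KK w) =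
    algebraMap WW KK (WittVector.frobenius^[n] w) := by
  induction n with
  | zero => simp
  | succ n ih =>
    rw [pow_succ', RingAut.mul_apply, ih, phi_alg, Function.iterate_succ_apply']

lemma exists_moved (n : ℕ) (hn : n ≠ 0) : ∃ w : WW, (phi ^ n) (algebraMap WW KK w) ≠ algebraMap WW KK w := by
  obtain ⟨t, ht⟩ : ∃ t : kk, t ^ (2 ^ n) ≠ t := by
    by_contra hcon
    push Not at hcon
    have hfin : (Set.univ : Set kk).Finite := by
      have hp : (Polynomial.X ^ (2 ^ n) - Polynomial.X : Polynomial kk) ≠ 0 := by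
        intro hz
        have := congrArg (fun q => Polynomial.coeff q 1) hz
        have h2n : (2 : ℕ) ^ n ≠ 1 := by
          have := Nat.one_lt_two_pow hn
          omega
        simp only [Polynomial.coeff_sub, Polynomial.coeff_X_pow, Polynomial.coeff_X_one,
          Polynomial.coeff_zero] at this
        rw [if_neg (Ne.symm h2n)] at this
        simp at this
      refine (Polynomial.finite_setOfPred_isRoot hp).subset ?_
      intro t _
      simp [Polynomial.IsRoot, hcon t]
    exact Set.infinite_univ hfin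
  refine ⟨WittVector.teichmuller 2 t, ?_⟩
  intro hz
  rw [phi_npow] at hz
  have h1 := IsFractionRing.injective WW KK hz
  have h2 := congrArg (fun w => WittVector.coeff w 0) h1
  simp only [WittVector.iterate_frobenius_coeff, WittVector.teichmuller_coeff_zero] at h2
  exact ht h2


noncomputable def BB : Subring KK := (algebraMap WW KK).range

lemma BB_stable_nat (n : ℕ) (b : KK) (hb : b ∈ BB) : (phi ^ n) b ∈ BB := by
  obtain ⟨w, rfl⟩ := hb
  exact ⟨_, (phi_npow n w).symm⟩

lemma BB_stable_inv (n : ℕ) (b : KK) (hb : b ∈ BB) : ((phi⁻¹ : RingAut KK) ^ n) b ∈ BB := by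
  induction n with
  | zero => simpa using hb
  | succ n ih =>
    rw [pow_succ', RingAut.mul_apply]
    obtain ⟨w, hw⟩ := ih
    rw [← hw]
    obtain ⟨w', hw'⟩ := phi_alg' w
    exact ⟨w', hw'.symm⟩

lemma BB_stable (b : KK) (hb : b ∈ BB) (n : ℤ) : (phi ^ n) b ∈ BB := by
  cases n with
  | ofNat n => simpa using BB_stable_nat n b hb
  | negSucc n =>
    rw [zpow_negSucc, ← inv_pow]
    exact BB_stable_inv (n + 1) b hb

lemma two_ne : (2 : KK) ≠ 0 := by
  have := WittVector.FractionRing.p_nonzero 2 kk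
  simpa using this

lemma two_inv : (2 : KK)⁻¹ ∉ BB := by
  rintro ⟨w, hw⟩
  have h1 : algebraMap WW KK (2 * w) = algebraMap WW KK 1 := by
    rw [map_mul, hw, map_ofNat, map_one, mul_inv_cancel₀ two_ne]
  have h2 := IsFractionRing.injective WW KK h1
  have h3 : Irreducible ((2 : ℕ) : WW) := WittVector.irreducible 2
  apply h3.not_isUnit
  exact IsUnit.of_mul_eq_one w (by simpa using h2)

lemma BB_val (v : KK) (hv : v ≠ 0) : ∃ n : ℤ, ∃ u : KK, u ∈ BB ∧ u⁻¹ ∈ BB ∧ v = 2 ^ n * u := by
  obtain ⟨a, b, hb, rfl⟩ := IsFractionRing.div_surjective (A := WW) v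
  have hb0 : b ≠ 0 := nonZeroDivisors.ne_zero hb
  have ha0 : a ≠ 0 := by
    rintro rfl
    apply hv
    simp
  obtain ⟨m, u, hm⟩ := WittVector.exists_eq_pow_p_mul' a ha0
  obtain ⟨m', u', hm'⟩ := WittVector.exists_eq_pow_p_mul' b hb0
  refine ⟨(m : ℤ) - m', algebraMap WW KK (u * ((u'⁻¹ : WWˣ) : WW)), ⟨_, rfl⟩,
    ⟨(u' : WW) * ((u⁻¹ : WWˣ) : WW), ?_⟩, ?_⟩
  · rw [eq_comm, inv_eq_of_mul_eq_one_right]
    rw [← map_mul]
    rw [show (u : WW) * ((u'⁻¹ : WWˣ) : WW) * (↑u' * ((u⁻¹ : WWˣ) : WW)) =
      (u * ((u⁻¹ : WWˣ) : WW)) * (((u'⁻¹ : WWˣ) : WW) * u') by ring]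
    rw [Units.mul_inv, Units.inv_mul, mul_one, map_one]
  · rw [hm, hm']
    rw [map_mul, map_mul, map_mul, map_pow, map_pow, zpow_sub₀ two_ne]
    have hu' : algebraMap WW KK u' ≠ 0 := by
      intro hz
      have : algebraMap WW KK (u' * ((u'⁻¹ : WWˣ) : WW)) = 0 := by rw [map_mul, hz, zero_mul]
      rw [Units.mul_inv, map_one] at this
      exact one_ne_zero this
    have hinv : algebraMap WW KK ((u'⁻¹ : WWˣ) : WW) = (algebraMap WW KK u')⁻¹ := by
      rw [eq_comm, inv_eq_of_mul_eq_one_right]
      rw [← map_mul, Units.mul_inv, map_one]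
    rw [hinv]
    have h2 := two_ne
    simp only [Nat.cast_ofNat, map_ofNat, zpow_natCast]
    field_simp

lemma BB_moved (n : ℤ) (hn : n ≠ 0) : ∃ b ∈ BB, (phi ^ n) b ≠ b := by
  cases n with
  | ofNat n =>
    obtain ⟨w, hw⟩ := exists_moved n (by rintro rfl; exact hn rfl)
    exact ⟨_, ⟨w, rfl⟩, by simpa using hw⟩
  | negSucc n =>
    obtain ⟨w, hw⟩ := exists_moved (n + 1) (by omega)
    refine ⟨_, ⟨w, rfl⟩, fun hz => hw ?_⟩
    rw [zpow_negSucc] at hz
    conv_lhs => rw [← hz]
    rw [← RingAut.mul_apply]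
    simp

/-- **Negative answer to Q1.**  There is a (unital) right primitive ring `R` that is not a subdirect
product of rings that are both subdirectly indecomposable and right primitive: no set `𝒥` of
two-sided ideals of `R` with intersection zero has all quotients `R ⧸ J` (`J ∈ 𝒥`) right primitive
and subdirectly indecomposable. -/
theorem result : ∃ (R : Type) (_ : Ring R), IsRightPrimitive R ∧
    ¬ ∃ 𝒥 : Set (TwoSidedIdeal R), sInf 𝒥 = ⊥ ∧
      ∀ J ∈ 𝒥, IsRightPrimitive J.ringCon.Quotient ∧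
        IsSubdirectlyIndecomposable J.ringCon.Quotient := by
  have hph : phi 2 = 2 := map_ofNat _ _
  have h2B : (2 : KK) ∈ BB := ⟨2, map_ofNat _ _⟩
  refine ⟨(opRing phi 2 BB hph two_ne BB_stable)ᵐᵒᵖ, inferInstance,
    primitive phi 2 BB hph two_ne BB_stable h2B BB_val, ?_⟩
  rintro ⟨𝒥, hinf, hJ⟩
  obtain ⟨x, hx0, hx⟩ := main_abs phi 2 BB hph two_ne BB_stable h2B two_inv BB_val BB_moved
  apply hx0
  have : x ∈ sInf 𝒥 := by
    rw [TwoSidedIdeal.mem_sInf]
    intro J hJJ
    exact hx J (hJ J hJJ).1 (hJ J hJJ).2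
  rw [hinf, TwoSidedIdeal.mem_bot] at this
  exact this

end witt

end Pool.Agent.Results.MP_150040_al.NotSubdirectProduct

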